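import Mathlib
import Pool.Agent.Helper964.Liminf

open MeasureTheory ProbabilityTheory Set Filter Topology
open scoped ENNReal NNReal

namespace Pool.Agent.Results.MP_9ba241_pr.LimitNotZero

open Pool.Agent.Helper964.Copolymer

variable {K : ℕ → ℝ} {α : ℝ} {Ω : Type*} [MeasurableSpace Ω] {P : Measure Ω}
  {T ζ : ℕ → Ω → ℕ} {Ω' : Type*} [MeasurableSpace Ω'] {Q : Measure Ω'} {om : ℕ → Ω' → ℝ}

lemma hsum_one (hK : IsInterarrival K α) {ρ : ℝ} (hρ0 : 0 ≤ ρ) (hρ : ρ ≤ 1) (M : ℕ) :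
    ∑ j ∈ Finset.range M, (K (j + 1) / 2) ^ (1 : ℝ) * (1 + ρ ^ (j + 1)) ≤ (1 + ρ) / 2 := by
  have h1 : ∀ j ∈ Finset.range M, (K (j + 1) / 2) ^ (1 : ℝ) * (1 + ρ ^ (j + 1)) ≤
      K (j + 1) * ((1 + ρ) / 2) := by
    intro j _
    rw [Real.rpow_one]
    have h2 : ρ ^ (j + 1) ≤ ρ := by
      rw [pow_succ]
      have : ρ ^ j ≤ 1 := pow_le_one₀ hρ0 hρ
      nlinarith
    have h3 := hK.nonneg (j + 1)
    nlinarith
  refine (Finset.sum_le_sum h1).trans ?_
  rw [← Finset.sum_mul]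
  have h4 : ∑ j ∈ Finset.range M, K (j + 1) ≤ 1 := by
    have h5 := (hK.summable_tail 1).sum_le_tsum (Finset.range M) fun j _ => hK.nonneg _
    have h6 := hK.hasSum.summable.tsum_eq_zero_add
    rw [hK.hasSum.tsum_eq, hK.zero, zero_add] at h6
    rw [h6]; exact h5
  have h5 : 0 ≤ (1 + ρ) / 2 := by linarith
  calc (∑ j ∈ Finset.range M, K (j + 1)) * ((1 + ρ) / 2) ≤ 1 * ((1 + ρ) / 2) :=
        mul_le_mul_of_nonneg_right h4 h5
    _ = _ := one_mul _

lemma mgf_ge_one (hQ : IsDisorder Q om) (t : ℝ) : 1 ≤ mgf (om 0) Q t := by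
  have hprob := hQ.indep.isProbabilityMeasure
  have hint : Integrable (om 0) Q := by
    have h1 := hQ.exp_int 1
    have h2 := hQ.exp_int (-1)
    refine Integrable.mono' (h1.add h2) (hQ.meas 0).aestronglyMeasurable
      (Eventually.of_forall fun v => ?_)
    rw [Real.norm_eq_abs, abs_le]
    have h3 := Real.add_one_le_exp (1 * om 0 v)
    have h4 := Real.add_one_le_exp (-1 * om 0 v)
    have h5 := Real.exp_pos (1 * om 0 v)
    have h6 := Real.exp_pos (-1 * om 0 v)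
    simp only [Pi.add_apply]
    constructor <;> linarith
  have h1 : ∫ v, (t * om 0 v + 1) ∂Q ≤ ∫ v, Real.exp (t * om 0 v) ∂Q :=
    integral_mono ((hint.const_mul t).add (integrable_const 1)) (hQ.exp_int t)
      fun v => Real.add_one_le_exp _
  rw [integral_add (hint.const_mul t) (integrable_const 1), integral_const_mul, hQ.mean] at h1
  simpa [mgf] using h1

/-- **The limit is not zero.** For every signed renewal and every disorder law of the problem,
for all `λ > 0` and all `h` above the annealed critical point, the point `(λ, h)` lies in the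
interior of the delocalized region and for almost every `ω`, for all `ε ∈ (0,1)`, the polymer
probability that `Δ_n = 0` for all `n ∈ [ε N, N]` has a positive upper limit. -/
theorem result {K : ℕ → ℝ} {α : ℝ} (hK : IsInterarrival K α)
    {Ω : Type*} [MeasurableSpace Ω] {P : Measure Ω} {T ζ : ℕ → Ω → ℕ}
    (hR : IsSignedRenewal P K T ζ)
    {Ω' : Type*} [MeasurableSpace Ω'] {Q : Measure Ω'} {om : ℕ → Ω' → ℝ}
    (hQ : IsDisorder Q om) (lam h : ℝ) (hlam : 0 < lam)
    (hh : Real.log (mgf (om 0) Q (-2 * lam)) / (2 * lam) < h) :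
    (lam, h) ∈ interior (deloc P T ζ Q om) ∧
      ∀ᵐ v ∂Q, ∀ ε : ℝ, 0 < ε → ε < 1 →
        (∃ δ : ℝ, 0 < δ ∧ ∃ᶠ N : ℕ in atTop,
          δ ≤ polymer P T ζ lam h (fun n => om n v) N (upEvent T ζ ε N)) ∧
        ¬ Tendsto (fun N : ℕ =>
          polymer P T ζ lam h (fun n => om n v) N (upEvent T ζ ε N)) atTop (𝓝 0) := by
  have hα := hK.alpha_pos
  rw [div_lt_iff₀ (by positivity)] at hh
  have hM1 := fun t => mgf_ge_one hQ t
  -- the region
  have key : ∀ l k : ℝ, 0 < l → Real.log (mgf (om 0) Q (-2 * l)) < k * (2 * l) →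
      0 < k ∧ 0 ≤ rho Q om 1 l k ∧ rho Q om 1 l k < 1 := by
    intro l k hl hk
    have h1 : 0 ≤ Real.log (mgf (om 0) Q (-2 * l)) := Real.log_nonneg (hM1 _)
    have h2 : 0 < k := by
      by_contra hneg
      push Not at hneg
      nlinarith
    have hMp : 0 < mgf (om 0) Q (-2 * l) := lt_of_lt_of_le one_pos (hM1 _)
    refine ⟨h2, mul_nonneg (Real.exp_pos _).le mgf_nonneg, ?_⟩
    unfold rho
    rw [show -2 * l * 1 = -2 * l by ring, ← Real.exp_log hMp, ← Real.exp_add, Real.exp_lt_one_iff]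
    linarith
  have h2 : (1 : ℝ) < 1 + 1 * α / 2 := by linarith
  constructor
  · rw [mem_interior]
    refine ⟨{p : ℝ × ℝ | 0 < p.1 ∧ Real.log (mgf (om 0) Q (-2 * p.1)) < p.2 * (2 * p.1)},
      ?_, ?_, ⟨hlam, hh⟩⟩
    · rintro ⟨l, k⟩ ⟨h3, h4⟩
      obtain ⟨h5, h6, h7⟩ := key l k h3 h4
      exact mem_deloc hK hR hQ (γ := 1) (s := (1 + rho Q om 1 l k) / 2) h3.le h5.le (by norm_num)
        le_rfl h2 h7.le (by linarith) (hsum_one hK h6 h7.le)
    · have hc : Continuous (mgf (om 0) Q) := continuous_mgf hQ.exp_int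
      have hc2 : Continuous fun p : ℝ × ℝ => Real.log (mgf (om 0) Q (-2 * p.1)) :=
        (hc.comp (by fun_prop : Continuous fun p : ℝ × ℝ => -2 * p.1)).log
          fun p => (lt_of_lt_of_le one_pos (hM1 _)).ne'
      have ho : IsOpen {p : ℝ × ℝ |
          Real.log (mgf (om 0) Q (-2 * p.1)) < p.2 * (2 * p.1)} :=
        isOpen_lt hc2 (by fun_prop)
      have ho1 : IsOpen {p : ℝ × ℝ | 0 < p.1} := isOpen_lt continuous_const continuous_fst
      exact ho1.inter ho
  · obtain ⟨h5, h6, h7⟩ := key lam h hlam hh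
    have hsup := limsup_pos hK hR hQ (γ := 1) (s := (1 + rho Q om 1 lam h) / 2) (by norm_num)
      le_rfl h2 h7.le (by linarith) (hsum_one hK h6 h7.le)
    filter_upwards [hsup] with v hv ε _ _
    obtain ⟨δ, hδ, hf⟩ := hv
    refine ⟨⟨δ, hδ, hf ε⟩, fun hc => ?_⟩
    obtain ⟨N, hN1, hN2⟩ := ((hf ε).and_eventually (hc.eventually_lt_const hδ)).exists
    exact absurd hN1 (not_le.2 hN2)

end Pool.Agent.Results.MP_9ba241_pr.LimitNotZero
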