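import Mathlib
import Pool.Agent.Helper964.Liminf

open MeasureTheory ProbabilityTheory Set Filter Topology
open scoped ENNReal NNReal

namespace Pool.Agent.Results.MP_9ba241_pr.NoLimit

open Pool.Agent.Helper964.Copolymer

variable {K : ℕ → ℝ} {α : ℝ} {Ω : Type*} [MeasurableSpace Ω] {P : Measure Ω}
  {T ζ : ℕ → Ω → ℕ} {Ω' : Type*} [MeasurableSpace Ω'] {Q : Measure Ω'} {om : ℕ → Ω' → ℝ}

lemma gaussian_disorder (hm : ∀ n, Measurable (om n)) (hi : iIndepFun om Q)
    (hg : ∀ n, Q.map (om n) = gaussianReal 0 1) : IsDisorder Q om where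
  meas := hm
  indep := hi
  ident := fun n => ⟨(hm n).aemeasurable, (hm 0).aemeasurable, by rw [hg, hg]⟩
  mean := by
    have h1 : ∫ x, x ∂(Q.map (om 0)) = ∫ v, om 0 v ∂Q :=
      integral_map (hm 0).aemeasurable aestronglyMeasurable_id
    rw [← h1, hg 0, integral_id_gaussianReal]
  var := by
    have h1 : ∫ x, x ^ 2 ∂(Q.map (om 0)) = ∫ v, (om 0 v) ^ 2 ∂Q :=
      integral_map (hm 0).aemeasurable (by fun_prop)
    rw [← h1, hg 0]
    have h2 := variance_fun_id_gaussianReal (μ := 0) (v := 1)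
    rw [variance_eq_integral measurable_id'.aemeasurable] at h2
    simpa using h2
  exp_int := fun t => by
    have h1 : Integrable (fun x => Real.exp (t * x)) (Q.map (om 0)) := by
      rw [hg 0]; exact integrable_exp_mul_gaussianReal t
    exact (integrable_map_measure (by fun_prop) (hm 0).aemeasurable).1 h1

lemma rho_gaussian (hg : ∀ n, Q.map (om n) = gaussianReal 0 1) (γ lam hh : ℝ) :
    rho Q om γ lam hh = Real.exp (2 * lam ^ 2 * γ ^ 2 - 2 * lam * γ * hh) := by
  rw [rho, mgf_gaussianReal (hg 0), ← Real.exp_add]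
  congr 1
  push_cast
  ring

lemma gaussian_lower (hm : ∀ n, Measurable (om n)) (hg : ∀ n, Q.map (om n) = gaussianReal 0 1)
    {x : ℝ} (hx : 0 ≤ x) :
    ENNReal.ofReal ((√(2 * Real.pi))⁻¹ * Real.exp (-(x + 1) ^ 2 / 2)) ≤ Q {v | om 0 v ≤ -x} := by
  have h1 : Q {v | om 0 v ≤ -x} = gaussianReal 0 1 (Iic (-x)) := by
    rw [← hg 0, Measure.map_apply (hm 0) measurableSet_Iic]; rfl
  rw [h1]
  have h2 : gaussianReal 0 1 (Icc (-x - 1) (-x)) ≤ gaussianReal 0 1 (Iic (-x)) :=
    measure_mono Icc_subset_Iic_self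
  refine le_trans ?_ h2
  rw [gaussianReal_apply _ one_ne_zero]
  have h3 : ∫⁻ _ in Icc (-x - 1) (-x),
      ENNReal.ofReal ((√(2 * Real.pi))⁻¹ * Real.exp (-(x + 1) ^ 2 / 2)) ≤
      ∫⁻ y in Icc (-x - 1) (-x), gaussianPDF 0 1 y := by
    refine setLIntegral_mono' measurableSet_Icc fun y hy => ?_
    rw [gaussianPDF_def, gaussianPDFReal_def]
    refine ENNReal.ofReal_le_ofReal ?_
    simp only [NNReal.coe_one, mul_one, sub_zero]
    refine mul_le_mul_of_nonneg_left (Real.exp_le_exp.2 ?_) (by positivity)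
    have h4 : y ^ 2 ≤ (x + 1) ^ 2 := by
      have := hy.1
      have := hy.2
      nlinarith
    have h5 : -y ^ 2 / 2 = -(y ^ 2) / 2 := by ring
    linarith
  refine le_trans (le_of_eq ?_) h3
  rw [setLIntegral_const, Real.volume_Icc]
  have : -x - (-x - 1) = 1 := by ring
  rw [this, ENNReal.ofReal_one, mul_one]

/-- choice of the exponent -/
lemma exists_gamma (hK : IsInterarrival K α) :
    ∃ γ : ℝ, 1 / 2 < γ ∧ γ < 1 ∧ 1 < γ + γ * α / 2 ∧
      ∀ M, ∑ j ∈ Finset.range M, (K (j + 1) / 2) ^ γ ≤ 3 / 4 := by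
  have hα := hK.alpha_pos
  -- lower exponent
  obtain ⟨γ₀, hγ0, hγ1, hγ2⟩ : ∃ γ₀ : ℝ, 1 / 2 < γ₀ ∧ γ₀ < 1 ∧ 1 < γ₀ + γ₀ * α / 2 := by
    refine ⟨max (3 / 4) ((1 + 1 / (1 + α / 2)) / 2), ?_, ?_, ?_⟩
    · exact lt_of_lt_of_le (by norm_num) (le_max_left _ _)
    · refine max_lt (by norm_num) ?_
      have : 1 / (1 + α / 2) < 1 := by rw [div_lt_one (by positivity)]; linarith
      linarith
    · have h1 : (1 + 1 / (1 + α / 2)) / 2 ≤ max (3 / 4) ((1 + 1 / (1 + α / 2)) / 2) :=
        le_max_right _ _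
      have h2 : 1 < (1 + 1 / (1 + α / 2)) / 2 * (1 + α / 2) := by
        have : (1 + 1 / (1 + α / 2)) / 2 * (1 + α / 2) = ((1 + α / 2) + 1) / 2 := by field_simp
        rw [this]; linarith
      calc (1 : ℝ) < (1 + 1 / (1 + α / 2)) / 2 * (1 + α / 2) := h2
        _ ≤ max (3 / 4) ((1 + 1 / (1 + α / 2)) / 2) * (1 + α / 2) :=
            mul_le_mul_of_nonneg_right h1 (by positivity)
        _ = _ := by ring
  obtain ⟨C, hC, hle⟩ := hK.le
  have hKle1 : ∀ n, K n ≤ 1 := fun n => by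
    have := hK.hasSum.summable.le_tsum n (fun j _ => hK.nonneg j)
    rwa [hK.hasSum.tsum_eq] at this
  -- summability at γ₀
  have hsum0 : Summable fun j : ℕ => (K (j + 1) / 2) ^ γ₀ := by
    have h1 : Summable fun n : ℕ => (n : ℝ) ^ (-(γ₀ * (1 + α))) :=
      Real.summable_nat_rpow.2 (by nlinarith)
    have h2 := ((summable_nat_add_iff 1).2 h1).mul_left ((C / 2) ^ γ₀)
    refine Summable.of_nonneg_of_le (fun j => Real.rpow_nonneg (by
      have := hK.nonneg (j + 1); positivity) _) (fun j => ?_) h2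
    have hj : (0 : ℝ) ≤ ((j + 1 : ℕ) : ℝ) := Nat.cast_nonneg _
    have h4 : K (j + 1) / 2 ≤ C / 2 * ((j + 1 : ℕ) : ℝ) ^ (-(1 + α)) := by
      have := hle (j + 1) (by omega); linarith
    calc (K (j + 1) / 2) ^ γ₀ ≤ (C / 2 * ((j + 1 : ℕ) : ℝ) ^ (-(1 + α))) ^ γ₀ :=
          Real.rpow_le_rpow (by have := hK.nonneg (j + 1); positivity) h4 (by linarith)
      _ = _ := by
          rw [Real.mul_rpow (by positivity) (Real.rpow_nonneg hj _), ← Real.rpow_mul hj]
          congr 2; ring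
  have hdom : ∀ γ : ℝ, γ₀ ≤ γ → ∀ j : ℕ, (K (j + 1) / 2) ^ γ ≤ (K (j + 1) / 2) ^ γ₀ := by
    intro γ hγ j
    refine Real.rpow_le_rpow_of_exponent_ge ?_ ?_ hγ
    · have := hK.pos (j + 1) (by omega); positivity
    · have := hKle1 (j + 1); linarith
  have htend : Tendsto (fun γ : ℝ => ∑' j : ℕ, (K (j + 1) / 2) ^ γ) (𝓝[<] 1)
      (𝓝 (∑' j : ℕ, (K (j + 1) / 2) ^ (1 : ℝ))) := by
    refine tendsto_tsum_of_dominated_convergence hsum0 (fun j => ?_) ?_
    · have hpos : K (j + 1) / 2 ≠ 0 := by have := hK.pos (j + 1) (by omega); positivity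
      exact ((Real.continuous_const_rpow hpos).tendsto 1).mono_left nhdsWithin_le_nhds
    · have : ∀ᶠ γ in 𝓝[<] (1 : ℝ), γ₀ < γ := nhdsWithin_le_nhds (lt_mem_nhds hγ1)
      filter_upwards [this] with γ hγ j
      rw [Real.norm_eq_abs, abs_of_nonneg (Real.rpow_nonneg (by
        have := hK.nonneg (j + 1); positivity) _)]
      exact hdom γ hγ.le j
  have hval : ∑' j : ℕ, (K (j + 1) / 2) ^ (1 : ℝ) = 1 / 2 := by
    simp only [Real.rpow_one]
    rw [tsum_div_const]
    have h1 := hK.hasSum.summable.tsum_eq_zero_add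
    rw [hK.hasSum.tsum_eq, hK.zero, zero_add] at h1
    rw [← h1]
  rw [hval] at htend
  have hev := htend.eventually_lt_const (show (1 / 2 : ℝ) < 3 / 4 by norm_num)
  have hev2 : ∀ᶠ γ in 𝓝[<] (1 : ℝ), γ₀ < γ := nhdsWithin_le_nhds (lt_mem_nhds hγ1)
  obtain ⟨γ, h1, h2, h3⟩ := (hev.and (hev2.and self_mem_nhdsWithin)).exists
  have h3' : γ < 1 := h3
  refine ⟨γ, by linarith, h3', ?_, fun M => ?_⟩
  · have : γ₀ * (1 + α / 2) ≤ γ * (1 + α / 2) := mul_le_mul_of_nonneg_right h2.le (by positivity)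
    nlinarith
  · have hs : Summable fun j : ℕ => (K (j + 1) / 2) ^ γ :=
      Summable.of_nonneg_of_le (fun j => Real.rpow_nonneg (by
        have := hK.nonneg (j + 1); positivity) _) (hdom γ h2.le) hsum0
    exact (hs.sum_le_tsum _ fun j _ => Real.rpow_nonneg (by
      have := hK.nonneg (j + 1); positivity) _).trans h1.le

lemma hsum_of {γ ρ : ℝ} (hK : IsInterarrival K α) (hρ0 : 0 ≤ ρ) (hρ : ρ ≤ 1 / 4)
    (h : ∀ M, ∑ j ∈ Finset.range M, (K (j + 1) / 2) ^ γ ≤ 3 / 4) (M : ℕ) :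
    ∑ j ∈ Finset.range M, (K (j + 1) / 2) ^ γ * (1 + ρ ^ (j + 1)) ≤ 15 / 16 := by
  have h1 : ∀ j ∈ Finset.range M, (K (j + 1) / 2) ^ γ * (1 + ρ ^ (j + 1)) ≤
      (K (j + 1) / 2) ^ γ * (5 / 4) := by
    intro j _
    refine mul_le_mul_of_nonneg_left ?_ (Real.rpow_nonneg (by
      have := hK.nonneg (j + 1); positivity) _)
    have h2 : ρ ^ (j + 1) ≤ ρ := by
      rw [pow_succ]
      have : ρ ^ j ≤ 1 := pow_le_one₀ hρ0 (by linarith)
      nlinarith
    linarith
  refine (Finset.sum_le_sum h1).trans ?_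
  rw [← Finset.sum_mul]
  have := h M
  linarith

/-- Sanity check: for every inter-arrival law the signed renewal process of the statement exists. -/
lemma exists_signedRenewal (hK : IsInterarrival K α) :
    ∃ P : Measure (ℕ → ℕ × ℕ), IsSignedRenewal P K Tc Zc := by
  classical
  set ν : Measure (ℕ × ℕ) := Measure.sum fun n : ℕ =>
    ENNReal.ofReal (K n / 2) • (Measure.dirac (n, 0) + Measure.dirac (n, 1)) with hν
  have hK2 : ∀ n, 0 ≤ K n / 2 := fun n => by have := hK.nonneg n; positivity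
  have happ : ∀ s : Set (ℕ × ℕ), ν s = ∑' n : ℕ, ENNReal.ofReal (K n / 2) *
      (s.indicator 1 (n, 0) + s.indicator 1 (n, 1)) := by
    intro s
    rw [hν, Measure.sum_apply _ (Set.to_countable s).measurableSet]
    refine tsum_congr fun n => ?_
    rw [Measure.smul_apply, Measure.add_apply, smul_eq_mul,
      Measure.dirac_apply' _ (Set.to_countable s).measurableSet,
      Measure.dirac_apply' _ (Set.to_countable s).measurableSet]
  have hprob : IsProbabilityMeasure ν := by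
    refine ⟨?_⟩
    rw [happ]
    have h1 : ∀ n : ℕ, ENNReal.ofReal (K n / 2) * ((univ : Set (ℕ × ℕ)).indicator 1 (n, 0) +
        (univ : Set (ℕ × ℕ)).indicator 1 (n, 1)) = ENNReal.ofReal (K n) := by
      intro n
      simp only [indicator_univ, Pi.one_apply]
      rw [mul_add, mul_one, ← ENNReal.ofReal_add (hK2 n) (hK2 n)]
      congr 1; ring
    simp only [h1]
    rw [← ENNReal.ofReal_tsum_of_nonneg hK.nonneg hK.hasSum.summable, hK.hasSum.tsum_eq,
      ENNReal.ofReal_one]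
  have hsing : ∀ n : ℕ, ν {(n, 0)} = ENNReal.ofReal (K n / 2) ∧
      ν {(n, 1)} = ENNReal.ofReal (K n / 2) := by
    intro n
    constructor
    · rw [happ, tsum_eq_single n]
      · simp
      · intro m hm; simp [hm]
    · rw [happ, tsum_eq_single n]
      · simp
      · intro m hm; simp [hm]
  refine ⟨Measure.infinitePi fun _ : ℕ => ν, ?_, ?_, ?_, ?_⟩
  · exact fun i => measurable_fst.comp (measurable_pi_apply i)
  · exact fun i => measurable_snd.comp (measurable_pi_apply i)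
  · exact iIndepFun_infinitePi (P := fun _ : ℕ => ν) (X := fun _ (x : ℕ × ℕ) => (x.1, x.2))
      fun _ => measurable_id
  · intro i n
    have h1 : ∀ s : ℕ, (Measure.infinitePi fun _ : ℕ => ν) {w | Tc i w = n ∧ Zc i w = s} =
        ν {(n, s)} := by
      intro s
      have h0 := Measure.infinitePi_map_eval (fun _ : ℕ => ν) i
      have h00 : (Measure.infinitePi fun _ : ℕ => ν).map (fun x => x i) {(n, s)} = ν {(n, s)} := by
        rw [h0]
      rw [← h00, Measure.map_apply (measurable_pi_apply i) (measurableSet_singleton _)]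
      congr 1
      ext w
      constructor
      · rintro ⟨h2, h3⟩
        exact Prod.ext h2 h3
      · intro h2
        have h3 : w i = (n, s) := h2
        exact ⟨by rw [Tc, h3], by rw [Zc, h3]⟩
    rw [h1, h1]
    exact hsing n

/-- **Non-existence of the limit.** For every signed renewal as in the problem and i.i.d. standard
Gaussian charges, for all large `λ` the point `(λ, λ - 2)` lies in the interior of the delocalized
region, and for almost every `ω`, for every `ε ∈ (0,1)`, the polymer probability that `Δ_n = 0`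
for all `n ∈ [ε N, N]` does not converge: its lower limit is `0` and its upper limit is
positive. -/
theorem result {K : ℕ → ℝ} {α : ℝ} (hK : IsInterarrival K α)
    {Ω : Type*} [MeasurableSpace Ω] {P : Measure Ω} {T ζ : ℕ → Ω → ℕ}
    (hR : IsSignedRenewal P K T ζ)
    {Ω' : Type*} [MeasurableSpace Ω'] {Q : Measure Ω'} {om : ℕ → Ω' → ℝ}
    (hm : ∀ n, Measurable (om n)) (hi : iIndepFun om Q)
    (hg : ∀ n, Q.map (om n) = gaussianReal 0 1) :
    ∃ lam₀ : ℝ, 2 < lam₀ ∧ ∀ lam : ℝ, lam₀ ≤ lam →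
      (lam, lam - 2) ∈ interior (deloc P T ζ Q om) ∧
      ∀ᵐ v ∂Q, ∀ ε : ℝ, 0 < ε → ε < 1 →
        (∀ δ : ℝ, 0 < δ → ∃ᶠ N : ℕ in atTop,
          polymer P T ζ lam (lam - 2) (fun n => om n v) N (upEvent T ζ ε N) < δ) ∧
        (∃ δ : ℝ, 0 < δ ∧ ∃ᶠ N : ℕ in atTop,
          δ ≤ polymer P T ζ lam (lam - 2) (fun n => om n v) N (upEvent T ζ ε N)) ∧
        ∀ c : ℝ, ¬ Tendsto (fun N : ℕ =>
          polymer P T ζ lam (lam - 2) (fun n => om n v) N (upEvent T ζ ε N)) atTop (𝓝 c) := by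
  have hQ := gaussian_disorder hm hi hg
  obtain ⟨γ, hγ0, hγ1, hγ2, hγs⟩ := exists_gamma hK
  have h1γ : 0 < 1 - γ := by linarith
  have hbase : 8 ≤ 4 / (1 - γ) := by rw [le_div_iff₀ h1γ]; linarith
  refine ⟨4 / (1 - γ), by linarith, fun lam hlam => ?_⟩
  have hlam8 : 8 ≤ lam := hbase.trans hlam
  have hlamγ : 4 ≤ lam * (1 - γ) := by rwa [div_le_iff₀ h1γ] at hlam
  -- the fractional moment condition at the point
  have hρ : rho Q om γ lam (lam - 2) < 1 / 4 := by
    rw [rho_gaussian hg]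
    have h1 : 2 * lam ^ 2 * γ ^ 2 - 2 * lam * γ * (lam - 2) ≤ -2 := by
      have e : 2 * lam ^ 2 * γ ^ 2 - 2 * lam * γ * (lam - 2) =
          -(2 * (lam * γ) * (lam * (1 - γ) - 2)) := by ring
      rw [e]
      have h2 : 1 ≤ lam * γ := by nlinarith
      have h3 : 2 ≤ lam * (1 - γ) - 2 := by linarith
      nlinarith
    calc Real.exp _ ≤ Real.exp (-2) := Real.exp_le_exp.2 h1
      _ < 1 / 4 := by
          rw [Real.exp_neg, inv_lt_comm₀ (Real.exp_pos _) (by norm_num)]
          have h2 : Real.exp 2 = Real.exp 1 * Real.exp 1 := by rw [← Real.exp_add]; norm_num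
          have h3 := Real.exp_one_gt_d9
          rw [h2]; nlinarith
  constructor
  · -- interior
    rw [mem_interior]
    refine ⟨{p : ℝ × ℝ | 0 < p.1 ∧ 0 < p.2 ∧
      Real.exp (2 * p.1 ^ 2 * γ ^ 2 - 2 * p.1 * γ * p.2) < 1 / 4}, ?_, ?_, ?_⟩
    · rintro ⟨l, hh⟩ ⟨h1, h2, h3⟩
      have h4 : rho Q om γ l hh < 1 / 4 := by rw [rho_gaussian hg]; exact h3
      have h5 : 0 ≤ rho Q om γ l hh := by rw [rho_gaussian hg]; exact (Real.exp_pos _).le
      exact mem_deloc hK hR hQ h1.le h2.le hγ0 hγ1.le hγ2 (by linarith)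
        (show (15 / 16 : ℝ) < 1 by norm_num) (hsum_of hK h5 h4.le hγs)
    · have ho : IsOpen {p : ℝ × ℝ |
          Real.exp (2 * p.1 ^ 2 * γ ^ 2 - 2 * p.1 * γ * p.2) < 1 / 4} :=
        isOpen_lt (by fun_prop) continuous_const
      have ho1 : IsOpen {p : ℝ × ℝ | 0 < p.1} := isOpen_lt continuous_const continuous_fst
      have ho2 : IsOpen {p : ℝ × ℝ | 0 < p.2} := isOpen_lt continuous_const continuous_snd
      exact ho1.inter (ho2.inter ho)
    · refine ⟨by simp only; linarith, by simp only; linarith, ?_⟩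
      have := hρ
      rwa [rho_gaussian hg] at this
  · -- the almost sure statement
    have hρ0 : 0 ≤ rho Q om γ lam (lam - 2) := by
      rw [rho_gaussian hg]; exact (Real.exp_pos _).le
    have hsup := limsup_pos hK hR hQ hγ0 hγ1.le hγ2 (by linarith)
      (show (15 / 16 : ℝ) < 1 by norm_num) (hsum_of hK hρ0 hρ.le hγs)
    set x : ℝ := 2 * lam - 1 with hx
    set q : ℝ := (√(2 * Real.pi))⁻¹ * Real.exp (-(x + 1) ^ 2 / 2) with hq
    have hsq1 : 1 < √(2 * Real.pi) := by
      rw [Real.lt_sqrt (by norm_num)]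
      have := Real.pi_gt_three
      linarith
    have hsq3 : √(2 * Real.pi) < 3 := by
      rw [Real.sqrt_lt' (by norm_num)]
      have := Real.pi_lt_four
      linarith
    have hq0 : 0 < q := by positivity
    have hq1 : q < 1 := by
      have h1 : (√(2 * Real.pi))⁻¹ < 1 := inv_lt_one_of_one_lt₀ hsq1
      have h2 : Real.exp (-(x + 1) ^ 2 / 2) ≤ 1 := by
        rw [Real.exp_le_one_iff]
        have := sq_nonneg (x + 1)
        linarith
      calc q ≤ (√(2 * Real.pi))⁻¹ * 1 := mul_le_mul_of_nonneg_left h2 (by positivity)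
        _ < 1 := by rw [mul_one]; exact h1
    have hgain : -Real.log q < 2 * lam * (x - (lam - 2)) := by
      rw [hq, Real.log_mul (by positivity) (Real.exp_pos _).ne', Real.log_exp, Real.log_inv, hx]
      have h1 : Real.log (√(2 * Real.pi)) ≤ 2 := by
        have := Real.log_le_sub_one_of_pos (show 0 < √(2 * Real.pi) by linarith)
        linarith
      nlinarith
    have hinf := liminf_zero hK hR hQ (lam := lam) (hh := lam - 2) (x := x) (q := q)
      (by linarith) hq0 hq1 (gaussian_lower hm hg (by rw [hx]; linarith)) hgain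
    filter_upwards [hsup, hinf] with v hv1 hv2 ε hε0 hε1
    obtain ⟨δ₀, hδ₀, hδf⟩ := hv1
    refine ⟨hv2 ε hε1, ⟨δ₀, hδ₀, hδf ε⟩, fun c hc => ?_⟩
    have h1 : δ₀ ≤ c := by
      by_contra hlt
      push Not at hlt
      have h2 := hc.eventually_lt_const hlt
      obtain ⟨N, hN1, hN2⟩ := ((hδf ε).and_eventually h2).exists
      exact absurd hN1 (not_le.2 hN2)
    have h3 := hc.eventually_const_lt (show δ₀ / 2 < c by linarith)
    obtain ⟨N, hN1, hN2⟩ := ((hv2 ε hε1 (δ₀ / 2) (by positivity)).and_eventually h3).exists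
    exact absurd hN1 (not_lt.2 hN2.le)

end Pool.Agent.Results.MP_9ba241_pr.NoLimit
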